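import Pool.Agent.FBU.Main

/-!
# MP_d9a86d_gt: semi-positive classes of positive volume on fibre spaces

Part 1: a semi-positive class of positive volume on `M` gives one on the base of every holomorphic submersion with
connected fibres, on the fibres, and on the manifolds with a thick map to `M`.
Part 2: Question Q1 (semi-positive class of positive volume ⇒ Fujiki class) for the base of a smooth fibration implies Q1 for
the total space, if the fibres are curves, complex tori, relatively Kaehler, ...; the closure of this and of some
other rules.
-/

set_option autoImplicit false

noncomputable section

open scoped Manifold ContDiff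

namespace Pool.Agent.KeptDG.FibreSpaces

open Pool.Agent.FBR Pool.Agent.FBU

universe u

theorem result : (∀ M : CM.{u}, SemiPos M → Perm M) ∧
    ∀ C : CM.{u} → Prop, (C = Fujiki ∨ C = Kaehler) → ∀ M : CM.{u}, Tow C M → SemiPos M → C M :=
  ⟨perm_main, fun C hC M => tow_main C hC M⟩

end Pool.Agent.KeptDG.FibreSpaces
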