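import Pool.Agent.HMV.Fin

/-!
Monge-Ampere volumes on Hopf manifolds of dimension `n ≥ 3` are unbounded.

`X = (ℂⁿ ∖ 0)/⟨z ↦ q z⟩`, `|q| > 1`. A Hermitian metric `ω` on `X` is given by the field `A` of
positive definite matrices (`IsHermMetric`), `ω + dd^c φ` by `A + leviMat φ`, and
`∫_X (ω + dd^c φ)^n` is, up to a factor depending only on `n`, the number `mvol q A φ`.
For every Hermitian metric there is `c > 0` such that for every `T ≥ 1` some smooth `φ` on `X` with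
`ω + dd^c φ > 0` and `|φ| ≤ T²` has volume at least `c T^{n-2}`.
-/

namespace Pool.Agent.KeptDG.UnboundedVolumes

open Pool.Agent.HMV

theorem result (n : ℕ) (hn : 3 ≤ n) (q : ℂ) (hq : 1 < ‖q‖)
    (A : (Fin n → ℂ) → Matrix (Fin n) (Fin n) ℂ) (hA : IsHermMetric q A) :
    ∃ c : ℝ, 0 < c ∧ ∀ T : ℝ, 1 ≤ T → ∃ φ : (Fin n → ℂ) → ℝ, IsPotential q A φ ∧
      (∀ z, z ≠ 0 → |φ z| ≤ T ^ 2) ∧ c * T ^ (n - 2) ≤ mvol q A φ :=
  volumes n hn q hq A hA

end Pool.Agent.KeptDG.UnboundedVolumes
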