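import Pool.Agent.HDW.W16

/-!
# MP_d9a86d_gt: strict positivity with a weight in a semi-positive class of positive volume

Let `M` be a compact connected complex manifold of dimension `n ≥ 2`, `β ≥ 0` a closed real `(1,1)`-form with `∫ β ^ n > 0`, `g` a
Hermitian metric, `p > 0`, `p > n - 2`. There is `δ > 0` such that for every `κ > 0` some smooth `f ≤ 0` with maximum `0` satisfies
`β + dd^c f ≥ (δ (1 - f) ^ (-p) - κ) g`.
-/

set_option autoImplicit false

noncomputable section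

namespace Pool.Agent.KeptDG.WeightedCurrent

open Pool.Agent.FBR HFC

universe u

theorem result (M : CM.{u}) (hn : 2 ≤ Module.finrank ℂ M.E) (b : Form M.E M.X) (hb : b.Semi) (hb' : ∃ x, b.PosAt x)
    (g : M.X → Bil M.E) (hg : Herm g) (p : ℝ) (hp : 0 < p) (hpn : (Module.finrank ℂ M.E : ℝ) - 2 < p) :
    ∃ δ : ℝ, 0 < δ ∧ ∀ κ : ℝ, 0 < κ → ∃ f : M.X → ℝ, SmF M.E f ∧ (∀ x, f x ≤ 0) ∧ (∃ x, f x = 0) ∧
      Above b g f fun x => δ * (1 - f x) ^ (-p) - κ :=
  wk_of M hn b hb hb' g hg p hp hpn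

end Pool.Agent.KeptDG.WeightedCurrent
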